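import Mathlib
import Pool.Agent.Helper94_SQS.Stmts

/-!
# MP_5a6e11_an, module EDG (Edgar's theorem)
-/

set_option autoImplicit false

open MeasureTheory Filter Topology

namespace Pool.Agent.SQS.H96

/-- joint surjectivity on a finite subset of an independent family of functionals -/
theorem surjFin (hA : EdgAStmt) {E : Type} [AddCommGroup E] [Module ℝ E] {Γ : Type}
    (B : Γ → E →ₗ[ℝ] ℝ) (hB : LinearIndependent ℝ B) (J : Finset Γ) (c : Γ → ℝ) :
    ∃ x : E, ∀ γ ∈ J, B γ x = c γ := by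
  classical
  let e := J.equivFin
  obtain ⟨x, hx⟩ := hA E J.card (fun i => B (e.symm i).1)
    (hB.comp (fun i : Fin J.card => ((e.symm i).1 : Γ)) (by
      intro i j hij
      exact e.symm.injective (Subtype.ext hij))) (fun i => c (e.symm i).1)
  refine ⟨x, fun γ hγ => ?_⟩
  have := hx (e ⟨γ, hγ⟩)
  simpa using this

/-- boxes -/
abbrev Bx (Γ : Type) : Type := Finset Γ × (Γ → ℝ) × (Γ → ℝ)

/-- the set of a box -/
def bset {E : Type} [AddCommGroup E] [Module ℝ E] {Γ : Type} (B : Γ → E →ₗ[ℝ] ℝ) (t : Bx Γ) :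
    Set E := {x | ∀ γ ∈ t.1, t.2.1 γ < B γ x ∧ B γ x < t.2.2 γ}

/-- valid boxes are nonempty, and two boxes with compatible intervals meet -/
theorem meet_of (hA : EdgAStmt) {E : Type} [AddCommGroup E] [Module ℝ E] {Γ : Type}
    (B : Γ → E →ₗ[ℝ] ℝ) (hB : LinearIndependent ℝ B) (s t : Bx Γ)
    (hs : ∀ γ ∈ s.1, s.2.1 γ < s.2.2 γ) (ht : ∀ γ ∈ t.1, t.2.1 γ < t.2.2 γ)
    (hst : ∀ γ, γ ∈ s.1 → γ ∈ t.1 → t.2.1 γ < s.2.2 γ ∧ s.2.1 γ < t.2.2 γ) :
    (bset B s ∩ bset B t).Nonempty := by
  classical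
  have hc : ∀ γ, ∃ c : ℝ, (γ ∈ s.1 → s.2.1 γ < c ∧ c < s.2.2 γ) ∧
      (γ ∈ t.1 → t.2.1 γ < c ∧ c < t.2.2 γ) := by
    intro γ
    by_cases h1 : γ ∈ s.1
    · by_cases h2 : γ ∈ t.1
      · have h3 := hst γ h1 h2
        have h4 := hs γ h1
        have h5 := ht γ h2
        obtain ⟨c, hc1, hc2⟩ := exists_between
          (show max (s.2.1 γ) (t.2.1 γ) < min (s.2.2 γ) (t.2.2 γ) by
            rw [max_lt_iff, lt_min_iff, lt_min_iff]
            exact ⟨⟨h4, h3.2⟩, ⟨h3.1, h5⟩⟩)
        rw [max_lt_iff] at hc1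
        rw [lt_min_iff] at hc2
        exact ⟨c, fun _ => ⟨hc1.1, hc2.1⟩, fun _ => ⟨hc1.2, hc2.2⟩⟩
      · obtain ⟨c, hc1, hc2⟩ := exists_between (hs γ h1)
        exact ⟨c, fun _ => ⟨hc1, hc2⟩, fun h => absurd h h2⟩
    · by_cases h2 : γ ∈ t.1
      · obtain ⟨c, hc1, hc2⟩ := exists_between (ht γ h2)
        exact ⟨c, fun h => absurd h h1, fun _ => ⟨hc1, hc2⟩⟩
      · exact ⟨0, fun h => absurd h h1, fun h => absurd h h2⟩
  choose c hc1 hc2 using hc
  obtain ⟨x, hx⟩ := surjFin hA B hB (s.1 ∪ t.1) c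
  refine ⟨x, fun γ hγ => ?_, fun γ hγ => ?_⟩
  · rw [hx γ (Finset.mem_union_left _ hγ)]
    exact hc1 γ hγ
  · rw [hx γ (Finset.mem_union_right _ hγ)]
    exact hc2 γ hγ

/-- Edgar's theorem in coordinates -/
theorem edg_core (hA : EdgAStmt) (hE : EdgBStmt) {E : Type} [AddCommGroup E] [Module ℝ E]
    [MeasurableSpace E] {Γ : Type} (B : Γ → E →ₗ[ℝ] ℝ) (hB : LinearIndependent ℝ B)
    (hBm : ∀ γ, Measurable (B γ)) (g : E → ℝ)
    (hg : ∀ (U : Set ℝ), IsOpen U → ∀ x, g x ∈ U → ∃ (J : Finset Γ) (a b : Γ → ℚ),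
      (∀ γ ∈ J, (a γ : ℝ) < B γ x ∧ B γ x < b γ) ∧
      ∀ y, (∀ γ ∈ J, (a γ : ℝ) < B γ y ∧ B γ y < b γ) → g y ∈ U) :
    Measurable g := by
  classical
  -- for every real number a measurable set between
  have key : ∀ r : ℝ, ∃ C : Set E, MeasurableSet C ∧ {x | g x < r} ⊆ C ∧ C ⊆ {x | g x ≤ r} := by
    intro r
    -- families
    let Fam : Set (Set (Bx Γ)) := {T | (∀ t ∈ T, (∀ γ ∈ t.1, t.2.1 γ < t.2.2 γ) ∧
      bset B t ⊆ {x | g x < r}) ∧ ∀ s ∈ T, ∀ t ∈ T, s ≠ t → bset B s ∩ bset B t = ∅}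
    obtain ⟨T, hT⟩ : ∃ T, Maximal (· ∈ Fam) T := by
      refine zorn_subset Fam ?_
      intro c hc hchain
      refine ⟨⋃₀ c, ⟨?_, ?_⟩, fun s hs => Set.subset_sUnion_of_mem hs⟩
      · rintro t ⟨T, hTc, htT⟩
        exact (hc hTc).1 t htT
      · rintro s ⟨T1, hT1, hs⟩ t ⟨T2, hT2, ht⟩ hne
        rcases hchain.total hT1 hT2 with h | h
        · exact (hc hT2).2 s (h hs) t ht hne
        · exact (hc hT1).2 s hs t (h ht) hne
    have hTF := hT.prop
    -- countable
    have hcount : Countable T := by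
      refine hE Γ T (fun t => t.1.1) (fun t => t.1.2.1) (fun t => t.1.2.2)
        (fun t => (hTF.1 t.1 t.2).1) ?_
      intro s t hne
      by_contra hcon
      push Not at hcon
      have h1 := meet_of hA B hB s.1 t.1 (hTF.1 s.1 s.2).1 (hTF.1 t.1 t.2).1
        (fun γ h2 h3 => by
          have := hcon γ h2 h3
          exact this)
      rw [hTF.2 s.1 s.2 t.1 t.2 (fun h => hne (Subtype.ext h))] at h1
      exact Set.not_nonempty_empty h1
    -- the countable set of coordinates
    let S : Set Γ := ⋃ t : T, (t.1.1 : Set Γ)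
    have hScount : S.Countable := Set.countable_iUnion fun t => t.1.1.countable_toSet
    have : Countable S := hScount.to_subtype
    -- rational boxes on S
    let rb : Finset (S × ℚ × ℚ) → Set E := fun F =>
      {x | ∀ c ∈ F, (c.2.1 : ℝ) < B c.1.1 x ∧ B c.1.1 x < c.2.2}
    have hrb : ∀ F, MeasurableSet (rb F) := by
      intro F
      have h1 : rb F = ⋂ c ∈ F, ({x | (c.2.1 : ℝ) < B c.1.1 x} ∩ {x | B c.1.1 x < c.2.2}) := by
        ext x
        simp only [rb, Set.mem_ofPred_eq, Set.mem_iInter, Set.mem_inter_iff]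
      rw [h1]
      refine MeasurableSet.biInter F.countable_toSet fun c _ => ?_
      exact (measurableSet_lt measurable_const (hBm _)).inter
        (measurableSet_lt (hBm _) measurable_const)
    let C : Set E := ⋂ F : Finset (S × ℚ × ℚ),
      ((rb F)ᶜ ∪ {_x | ∃ t ∈ T, (rb F ∩ bset B t).Nonempty})
    refine ⟨C, ?_, ?_, ?_⟩
    · refine MeasurableSet.iInter fun F => (hrb F).compl.union (MeasurableSet.const _)
    · -- lower inclusion
      intro x hx
      have hx' : g x < r := hx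
      rw [Set.mem_iInter]
      intro F
      by_cases hxF : x ∈ rb F
      · right
        by_contra hno
        have hno' : ∀ t ∈ T, ¬ (rb F ∩ bset B t).Nonempty := by
          intro t ht h
          exact hno ⟨t, ht, h⟩
        obtain ⟨J, a, b, hxJ, hJ⟩ := hg (Set.Iio r) isOpen_Iio x hx'
        -- box around x inside both
        -- coordinates of F
        let JF : Finset Γ := F.image fun c => c.1.1
        let lo : Γ → ℝ := fun γ =>
          (insert (B γ x - 1) (((J.filter (· = γ)).image fun γ => (a γ : ℝ)) ∪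
            ((F.filter (fun c => c.1.1 = γ)).image fun c => (c.2.1 : ℝ)))).max' (by simp)
        let hi : Γ → ℝ := fun γ =>
          (insert (B γ x + 1) (((J.filter (· = γ)).image fun γ => (b γ : ℝ)) ∪
            ((F.filter (fun c => c.1.1 = γ)).image fun c => (c.2.2 : ℝ)))).min' (by simp)
        have hlo : ∀ γ, lo γ < B γ x := by
          intro γ
          rw [Finset.max'_lt_iff]
          intro y hy
          simp only [Finset.mem_insert, Finset.mem_union, Finset.mem_image,
            Finset.mem_filter] at hy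
          rcases hy with hy | ⟨γ', ⟨h1, h2⟩, h3⟩ | ⟨c, ⟨h1, h2⟩, h3⟩
          · rw [hy]; linarith
          · rw [← h3, h2]; rw [h2] at h1; exact (hxJ γ h1).1
          · rw [← h3, ← h2]; exact (hxF c h1).1
        have hhi : ∀ γ, B γ x < hi γ := by
          intro γ
          rw [Finset.lt_min'_iff]
          intro y hy
          simp only [Finset.mem_insert, Finset.mem_union, Finset.mem_image,
            Finset.mem_filter] at hy
          rcases hy with hy | ⟨γ', ⟨h1, h2⟩, h3⟩ | ⟨c, ⟨h1, h2⟩, h3⟩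
          · rw [hy]; linarith
          · rw [← h3, h2]; rw [h2] at h1; exact (hxJ γ h1).2
          · rw [← h3, ← h2]; exact (hxF c h1).2
        let t0 : Bx Γ := (J ∪ JF, lo, hi)
        have ht0x : x ∈ bset B t0 := fun γ _ => ⟨hlo γ, hhi γ⟩
        have ht0J : bset B t0 ⊆ {x | g x < r} := by
          intro y hy
          apply hJ
          intro γ hγ
          have h1 := hy γ (Finset.mem_union_left _ hγ)
          refine ⟨lt_of_le_of_lt (Finset.le_max' _ _ ?_) h1.1,
            lt_of_lt_of_le h1.2 (Finset.min'_le _ _ ?_)⟩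
          · simp only [Finset.mem_insert, Finset.mem_union, Finset.mem_image,
              Finset.mem_filter]
            exact Or.inr (Or.inl ⟨γ, ⟨hγ, rfl⟩, rfl⟩)
          · simp only [Finset.mem_insert, Finset.mem_union, Finset.mem_image,
              Finset.mem_filter]
            exact Or.inr (Or.inl ⟨γ, ⟨hγ, rfl⟩, rfl⟩)
        have ht0F : bset B t0 ⊆ rb F := by
          intro y hy c hc
          have hcJ : c.1.1 ∈ J ∪ JF := Finset.mem_union_right _ (Finset.mem_image_of_mem _ hc)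
          have h1 := hy c.1.1 hcJ
          refine ⟨lt_of_le_of_lt (Finset.le_max' _ _ ?_) h1.1,
            lt_of_lt_of_le h1.2 (Finset.min'_le _ _ ?_)⟩
          · simp only [Finset.mem_insert, Finset.mem_union, Finset.mem_image,
              Finset.mem_filter]
            exact Or.inr (Or.inr ⟨c, ⟨hc, rfl⟩, rfl⟩)
          · simp only [Finset.mem_insert, Finset.mem_union, Finset.mem_image,
              Finset.mem_filter]
            exact Or.inr (Or.inr ⟨c, ⟨hc, rfl⟩, rfl⟩)
        have hdis : ∀ t ∈ T, bset B t0 ∩ bset B t = ∅ := by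
          intro t ht
          by_contra hne
          obtain ⟨y, hy1, hy2⟩ := Set.nonempty_iff_ne_empty.2 hne
          exact hno' t ht ⟨y, ht0F hy1, hy2⟩
        have hFam : insert t0 T ∈ Fam := by
          constructor
          · intro t ht
            rcases Set.mem_insert_iff.1 ht with rfl | ht
            · exact ⟨fun γ _ => (hlo γ).trans (hhi γ), ht0J⟩
            · exact hTF.1 t ht
          · intro s hs t ht hne
            rcases Set.mem_insert_iff.1 hs with rfl | hs
            · rcases Set.mem_insert_iff.1 ht with rfl | ht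
              · exact absurd rfl hne
              · exact hdis t ht
            · rcases Set.mem_insert_iff.1 ht with rfl | ht
              · rw [Set.inter_comm]; exact hdis s hs
              · exact hTF.2 s hs t ht hne
        have hmem : t0 ∈ T := hT.le_of_ge hFam (Set.subset_insert _ _) (Set.mem_insert _ _)
        have hcon := hdis t0 hmem
        rw [Set.inter_self] at hcon
        rw [hcon] at ht0x
        exact ht0x
      · left; exact hxF
    · -- upper inclusion
      intro x hx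
      by_contra hgx
      have hgx' : r < g x := not_le.1 hgx
      obtain ⟨J, a, b, hxJ, hJ⟩ := hg (Set.Ioi r) isOpen_Ioi x hgx'
      let F : Finset (S × ℚ × ℚ) := (J.subtype (· ∈ S)).image fun γ => (γ, a γ.1, b γ.1)
      have hxF : x ∈ rb F := by
        intro c hc
        simp only [F, Finset.mem_image, Finset.mem_subtype] at hc
        obtain ⟨γ, hγ, rfl⟩ := hc
        exact hxJ γ.1 hγ
      have h1 := Set.mem_iInter.1 hx F
      rcases h1 with h1 | h1
      · exact h1 hxF
      · obtain ⟨t, ht, y, hyF, hyt⟩ := h1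
        let s : Bx Γ := (J, fun γ => (a γ : ℝ), fun γ => (b γ : ℝ))
        have h2 := meet_of hA B hB s t (fun γ hγ => (hxJ γ hγ).1.trans (hxJ γ hγ).2)
          (hTF.1 t ht).1 (fun γ h3 h4 => by
            have hS : γ ∈ S := Set.mem_iUnion.2 ⟨⟨t, ht⟩, h4⟩
            have h5 : ((⟨γ, hS⟩ : S), a γ, b γ) ∈ F := by
              simp only [F, Finset.mem_image, Finset.mem_subtype]
              exact ⟨⟨γ, hS⟩, h3, rfl⟩
            have h6 := hyF _ h5
            have h7 := hyt γ h4
            exact ⟨h7.1.trans h6.2, h6.1.trans h7.2⟩)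
        obtain ⟨z, hz1, hz2⟩ := h2
        have h8 : r < g z := hJ z hz1
        have h9 : g z < r := (hTF.1 t ht).2 hz2
        exact absurd h8 (not_lt.2 h9.le)
  choose C hCm hC1 hC2 using key
  refine measurable_of_Iic fun r => ?_
  have hset : g ⁻¹' Set.Iic r = ⋂ s : ℚ, ⋂ _ : r < (s : ℝ), C s := by
    ext x
    simp only [Set.mem_preimage, Set.mem_Iic, Set.mem_iInter]
    constructor
    · intro h s hs
      exact hC1 s (lt_of_le_of_lt h hs)
    · intro h
      by_contra hcon
      obtain ⟨s, hs1, hs2⟩ := exists_rat_btwn (not_le.1 hcon)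
      have := hC2 s (h s hs1)
      exact absurd hs2 (not_lt.2 this)
  rw [hset]
  exact MeasurableSet.iInter fun s => MeasurableSet.iInter fun _ => hCm s

theorem cont_mono {X Y : Type} (t1 t2 : TopologicalSpace X) [TopologicalSpace Y] (h : t1 ≤ t2)
    (g : X → Y) (hg : @Continuous X Y t2 _ g) : @Continuous X Y t1 _ g :=
  continuous_le_dom h hg

theorem open_of_cont {X Y : Type} (t1 : TopologicalSpace X) [TopologicalSpace Y]
    (g : X → Y) (hg : @Continuous X Y t1 _ g) (U : Set Y) (hU : IsOpen U) :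
    @IsOpen X t1 (g ⁻¹' U) := hU.preimage hg

theorem edg (hA : EdgAStmt) (hE : EdgBStmt) : EdgStmt := by
  intro E _ _ g hg
  classical
  let Bs := Module.Basis.ofVectorSpace ℝ (E →L[ℝ] ℝ)
  let Γ := Module.Basis.ofVectorSpaceIndex ℝ (E →L[ℝ] ℝ)
  let B : Γ → E →ₗ[ℝ] ℝ := fun γ => (Bs γ : E →ₗ[ℝ] ℝ)
  have hB : LinearIndependent ℝ B := by
    have h1 : LinearIndependent ℝ Bs := Bs.linearIndependent
    have h2 : LinearIndependent ℝ (ContinuousLinearMap.coeLM ℝ ∘ Bs :
        Γ → E →ₗ[ℝ] ℝ) := by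
      refine h1.map' (ContinuousLinearMap.coeLM ℝ : (E →L[ℝ] ℝ) →ₗ[ℝ] (E →ₗ[ℝ] ℝ)) ?_
      rw [LinearMap.ker_eq_bot]
      intro a b hab
      exact ContinuousLinearMap.coe_injective hab
    exact h2
  let m0 : MeasurableSpace E := ⨆ φ : E →L[ℝ] ℝ, MeasurableSpace.comap (⇑φ) (borel ℝ)
  have hBm : ∀ γ, @Measurable E ℝ m0 _ (B γ) := by
    intro γ
    have h1 : MeasurableSpace.comap (⇑(Bs γ)) (borel ℝ) ≤ m0 :=
      le_iSup (fun φ : E →L[ℝ] ℝ => MeasurableSpace.comap (⇑φ) (borel ℝ)) (Bs γ)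
    refine Measurable.mono (comap_measurable _) (?_ : _ ≤ m0) le_rfl
    rwa [BorelSpace.measurable_eq (α := ℝ)]
  refine @edg_core hA hE E _ _ m0 Γ B hB hBm g ?_
  intro U hU x hx
  let π : E → Γ → ℝ := fun y γ => Bs γ y
  have hle : TopologicalSpace.induced π inferInstance ≤
      (⨅ φ : E →L[ℝ] ℝ, TopologicalSpace.induced (⇑φ) inferInstance) := by
    refine le_iInf fun φ => ?_
    rw [← continuous_iff_le_induced]
    have h1 : (φ : E → ℝ) = fun y => ∑ γ ∈ (Bs.repr φ).support, Bs.repr φ γ * π y γ := by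
      funext y
      have h2 := Bs.linearCombination_repr φ
      rw [Finsupp.linearCombination_apply, Finsupp.sum] at h2
      conv_lhs => rw [← h2]
      simp [π]
    rw [h1]
    let _ : TopologicalSpace E := TopologicalSpace.induced π inferInstance
    have hπ : Continuous π := continuous_induced_dom
    exact continuous_finsetSum _ fun γ _ =>
      continuous_const.mul ((continuous_apply γ).comp hπ)
  have hg' := cont_mono _ _ hle g hg
  have hopen := open_of_cont _ g hg' U hU
  rw [isOpen_induced_iff] at hopen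
  obtain ⟨O, hO, hOU⟩ := hopen
  have hxO : π x ∈ O := by
    have : x ∈ π ⁻¹' O := by rw [hOU]; exact hx
    exact this
  obtain ⟨I, u, hu, huO⟩ := isOpen_pi_iff.1 hO (π x) hxO
  have hex : ∀ γ, ∃ a b : ℚ, γ ∈ I → ((a : ℝ) < π x γ ∧ π x γ < b ∧ Set.Ioo (a : ℝ) b ⊆ u γ) := by
    intro γ
    by_cases hγ : γ ∈ I
    · obtain ⟨h1, h2⟩ := hu γ hγ
      obtain ⟨ε, hε, hball⟩ := Metric.isOpen_iff.1 h1 _ h2
      obtain ⟨a, ha1, ha2⟩ := exists_rat_btwn (show π x γ - ε < π x γ by linarith)
      obtain ⟨b, hb1, hb2⟩ := exists_rat_btwn (show π x γ < π x γ + ε by linarith)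
      refine ⟨a, b, fun _ => ⟨ha2, hb1, fun y hy => hball ?_⟩⟩
      rw [Metric.mem_ball, Real.dist_eq, abs_lt]
      constructor <;> linarith [hy.1, hy.2]
    · exact ⟨0, 0, fun h => absurd h hγ⟩
  choose a b hab using hex
  refine ⟨I, a, b, fun γ hγ => ⟨(hab γ hγ).1, (hab γ hγ).2.1⟩, fun y hy => ?_⟩
  have h1 : π y ∈ O := huO fun γ hγ => (hab γ hγ).2.2 ⟨(hy γ hγ).1, (hy γ hγ).2⟩
  have h2 : y ∈ π ⁻¹' O := h1
  rw [hOU] at h2
  exact h2

end Pool.Agent.SQS.H96
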