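import Mathlib
import Pool.Agent.Helper94_SQS.Stmts

/-!
# MP_5a6e11_an, modules EDGA and EDGB
-/

set_option autoImplicit false

open MeasureTheory Filter Topology

namespace Pool.Agent.SQS.H96

theorem edga : EdgAStmt := by
  intro E _ _ n b hb c
  by_contra hcon
  push Not at hcon
  have hlt : LinearMap.range (LinearMap.pi b) < ⊤ := by
    rw [lt_top_iff_ne_top]
    intro h
    have : c ∈ LinearMap.range (LinearMap.pi b) := by rw [h]; trivial
    obtain ⟨x, hx⟩ := this
    obtain ⟨i, hi⟩ := hcon x
    apply hi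
    have := congrFun hx i
    simpa using this
  obtain ⟨f, hf0, hf⟩ := Submodule.exists_le_ker_of_lt_top _ hlt
  apply hf0
  have hrel : ∑ i, f (Pi.single i 1) • b i = 0 := by
    ext x
    have h1 : f (LinearMap.pi b x) = 0 := hf ⟨x, rfl⟩
    rw [LinearMap.pi_apply_eq_sum_univ f] at h1
    simp only [LinearMap.pi_apply, smul_eq_mul] at h1
    simp only [LinearMap.coe_sum, Finset.sum_apply, LinearMap.smul_apply, smul_eq_mul,
      LinearMap.zero_apply]
    rw [← h1]
    refine Finset.sum_congr rfl fun i _ => ?_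
    rw [mul_comm]
    congr 2
    ext j
    simp [Pi.single_apply, eq_comm]
  have h0 := (Fintype.linearIndependent_iff.1 hb) _ hrel
  apply LinearMap.ext
  intro v
  rw [LinearMap.pi_apply_eq_sum_univ f]
  simp only [LinearMap.zero_apply]
  refine Finset.sum_eq_zero fun i _ => ?_
  have h2 := h0 i
  have h3 : (fun j => if i = j then (1:ℝ) else 0) = Pi.single i 1 := by
    ext j
    simp [Pi.single_apply, eq_comm]
  rw [h3, h2, smul_zero]

theorem edgb : EdgBStmt := by
  intro Γ T J a b hab hdis
  classical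
  let P : Measure ℝ := ProbabilityTheory.gaussianReal 0 1
  let Q : Measure (Γ → ℝ) := Measure.infinitePi fun _ : Γ => P
  let s : T → Set (Γ → ℝ) := fun t => (J t : Set Γ).pi fun γ => Set.Ioo (a t γ) (b t γ)
  have hms : ∀ t, MeasurableSet (s t) := fun t =>
    MeasurableSet.pi (J t).countable_toSet fun γ _ => measurableSet_Ioo
  have hpos : ∀ t, 0 < Q (s t) := by
    intro t
    have h1 : Q (s t) = ∏ γ ∈ J t, P (Set.Ioo (a t γ) (b t γ)) :=
      Measure.infinitePi_pi _ (fun _ _ => measurableSet_Ioo)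
    rw [h1]
    rw [pos_iff_ne_zero]
    intro h0
    rw [Finset.prod_eq_zero_iff] at h0
    obtain ⟨γ, hγ, h0⟩ := h0
    have h2 : (volume : Measure ℝ) (Set.Ioo (a t γ) (b t γ)) = 0 :=
      (ProbabilityTheory.gaussianReal_absolutelyContinuous' 0 (by norm_num : (1 : NNReal) ≠ 0)) h0
    rw [Real.volume_Ioo] at h2
    have h3 := hab t γ hγ
    rw [ENNReal.ofReal_eq_zero] at h2
    linarith
  have hdisj : Pairwise (Function.onFun Disjoint s) := by
    intro t t' hne
    obtain ⟨γ, h1, h2, h3⟩ := hdis t t' hne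
    rw [Function.onFun, Set.disjoint_left]
    intro p hp hp'
    have q1 := hp γ h1
    have q2 := hp' γ h2
    rcases h3 with h3 | h3
    · exact absurd (lt_of_lt_of_le q1.2 h3) (not_lt.2 q2.1.le)
    · exact absurd (lt_of_lt_of_le q2.2 h3) (not_lt.2 q1.1.le)
  have hc : Set.Countable {t : T | 0 < Q (s t)} :=
    Measure.countable_meas_pos_of_disjoint_iUnion hms hdisj
  have : {t : T | 0 < Q (s t)} = Set.univ := by
    ext t; simp [hpos t]
  rw [this] at hc
  exact Set.countable_univ_iff.1 hc

end Pool.Agent.SQS.H96
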